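import Mathlib

/-!
# MP_73fdb2: the classes of arc `k`-visibility graphs are pairwise incomparable
-/

namespace Pool.Agent.Results.MP_73fdb2_co.Incomparable

/-- The point with signed radius `t` in direction `φ` (so `t < 0` is the opposite ray). -/
noncomputable def pt (t φ : ℝ) : ℂ := (t : ℂ) * Complex.exp ((φ : ℂ) * Complex.I)

/-- An arc of the circle of radius `r` centred at the origin, from angle `a` counterclockwise
to angle `b`. -/
structure Arc where
  r : ℝ
  a : ℝ
  b : ℝ
  hr : 0 < r
  ha0 : 0 ≤ a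
  ha1 : a < 2 * Real.pi
  hab : a ≤ b
  hb : b - a < 2 * Real.pi

/-- The points of an arc. -/
def Arc.carrier (A : Arc) : Set ℂ := {z | ∃ φ ∈ Set.Icc A.a A.b, z = pt A.r φ}

/-- `u` and `v` are joined by a radial segment (on a line through the origin, from signed radius
`s` to signed radius `t`) with one endpoint on each arc, meeting at most `k` further arcs. -/
def KVisible {V : Type} (k : ℕ) (A : V → Arc) (u v : V) : Prop :=
  ∃ φ s t : ℝ, pt s φ ∈ (A u).carrier ∧ pt t φ ∈ (A v).carrier ∧
    {w : V | w ≠ u ∧ w ≠ v ∧ ∃ x ∈ Set.uIcc s t, pt x φ ∈ (A w).carrier}.encard ≤ k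

/-- `G` is an arc `k`-visibility graph. -/
def IsArcVisibility {V : Type} (k : ℕ) (G : SimpleGraph V) : Prop :=
  ∃ A : V → Arc, (∀ u v, u ≠ v → Disjoint (A u).carrier (A v).carrier) ∧
    ∀ u v, u ≠ v → (G.Adj u v ↔ KVisible k A u v)

/-! ### Polar coordinates -/

/-- Signed radius of the copy number `m` of an arc. -/
noncomputable def hgt (A : Arc) (m : ℤ) : ℝ := if Even m then A.r else -A.r

lemma pt_shift (r φ : ℝ) (m : ℤ) :
    pt r (φ + m * Real.pi) = pt (if Even m then r else -r) φ := by
  unfold pt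
  have h1 : Complex.exp (((φ + m * Real.pi : ℝ) : ℂ) * Complex.I) =
      Complex.exp ((φ : ℂ) * Complex.I) * (-1) ^ m := by
    rw [← Complex.exp_pi_mul_I, ← Complex.exp_int_mul, ← Complex.exp_add]
    congr 1
    push_cast
    ring
  rw [h1]
  split_ifs with h
  · rw [h.neg_one_zpow]
    ring
  · rw [(Int.not_even_iff_odd.1 h).neg_one_zpow]
    push_cast
    ring

lemma mem_carrier_iff (A : Arc) (x φ : ℝ) :
    pt x φ ∈ A.carrier ↔
      ∃ m : ℤ, A.a ≤ φ + m * Real.pi ∧ φ + m * Real.pi ≤ A.b ∧ x = hgt A m := by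
  constructor
  · rintro ⟨ψ, hψ, h⟩
    have hn := congrArg (fun z : ℂ => ‖z‖) h
    simp only [pt, norm_mul, Complex.norm_exp_ofReal_mul_I, mul_one, Complex.norm_real,
      Real.norm_eq_abs, abs_of_pos A.hr] at hn
    have key : ∀ θ : ℝ, Complex.exp ((θ : ℂ) * Complex.I) = Complex.exp ((ψ : ℂ) * Complex.I) →
        ∃ n : ℤ, θ = ψ + n * (2 * Real.pi) := by
      intro θ h2
      rw [Complex.exp_eq_exp_iff_exists_int] at h2
      obtain ⟨n, hn⟩ := h2
      refine ⟨n, ?_⟩
      have h3 : (θ : ℂ) = ψ + n * (2 * Real.pi) := by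
        have : ((θ : ℂ) - (ψ + n * (2 * Real.pi))) * Complex.I = 0 := by
          linear_combination hn
        rcases mul_eq_zero.1 this with h | h
        · linear_combination h
        · exact absurd h Complex.I_ne_zero
      exact_mod_cast h3
    have hne : (A.r : ℂ) ≠ 0 := by exact_mod_cast A.hr.ne'
    rcases abs_eq A.hr.le |>.1 hn with hu | hu
    · subst hu
      unfold pt at h
      obtain ⟨n, hn⟩ := key φ (mul_left_cancel₀ hne h)
      refine ⟨-2 * n, ?_, ?_, ?_⟩
      · push_cast
        have := hψ.1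
        linarith
      · push_cast
        have := hψ.2
        linarith
      · unfold hgt
        rw [if_pos ⟨-n, by ring⟩]
    · subst hu
      have h2 : pt A.r (φ + ((1 : ℤ) : ℝ) * Real.pi) = pt A.r ψ := by
        rw [pt_shift, if_neg (by decide), h]
      unfold pt at h2
      obtain ⟨n, hn⟩ := key _ (mul_left_cancel₀ hne h2)
      refine ⟨1 - 2 * n, ?_, ?_, ?_⟩
      · push_cast at hn ⊢
        have := hψ.1
        linarith
      · push_cast at hn ⊢
        have := hψ.2
        linarith
      · unfold hgt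
        rw [if_neg]
        rw [Int.not_even_iff_odd]
        exact ⟨-n, by ring⟩
  · rintro ⟨m, h1, h2, rfl⟩
    refine ⟨φ + m * Real.pi, ⟨h1, h2⟩, ?_⟩
    rw [pt_shift]
    rfl

lemma hgt_abs (A : Arc) (m : ℤ) : |hgt A m| = A.r := by
  unfold hgt
  split_ifs
  · exact abs_of_pos A.hr
  · rw [abs_neg]
    exact abs_of_pos A.hr

lemma KVisible_symm {V : Type} {k : ℕ} {A : V → Arc} {u v : V} (h : KVisible k A u v) :
    KVisible k A v u := by
  obtain ⟨φ, s, t, h1, h2, h3⟩ := h
  refine ⟨φ, t, s, h2, h1, ?_⟩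
  have : {w : V | w ≠ v ∧ w ≠ u ∧ ∃ x ∈ Set.uIcc t s, pt x φ ∈ (A w).carrier} =
      {w : V | w ≠ u ∧ w ≠ v ∧ ∃ x ∈ Set.uIcc s t, pt x φ ∈ (A w).carrier} := by
    ext w
    simp only [Set.mem_ofPred_eq, Set.uIcc_comm t s]
    tauto
  rw [this]
  exact h3

lemma KVisible_mono {V : Type} {k l : ℕ} (hkl : k ≤ l) {A : V → Arc} {u v : V}
    (h : KVisible k A u v) : KVisible l A u v := by
  obtain ⟨φ, s, t, h1, h2, h3⟩ := h
  exact ⟨φ, s, t, h1, h2, h3.trans (by exact_mod_cast hkl)⟩

/-! ### The counting lemma for bars -/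

section Bars

open Classical in
lemma rank_above {ι : Type} (S : Finset ι) (h : ι → ℝ) (hinj : Set.InjOn h S) (c : ℝ) (K : ℕ) :
    (S.filter fun j => c < h j ∧ (S.filter fun w => c < h w ∧ h w < h j).card ≤ K).card
      ≤ K + 1 := by
  set U := S.filter fun j => c < h j ∧ (S.filter fun w => c < h w ∧ h w < h j).card ≤ K with hU
  by_cases hne : U.Nonempty
  · obtain ⟨j, hj, hmax⟩ := U.exists_max_image h hne
    have hjS := Finset.mem_filter.1 hj
    have hsub : U.erase j ⊆ S.filter fun w => c < h w ∧ h w < h j := by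
      intro w hw
      rw [Finset.mem_erase] at hw
      have hwS := Finset.mem_filter.1 hw.2
      rw [Finset.mem_filter]
      refine ⟨hwS.1, hwS.2.1, lt_of_le_of_ne (hmax w hw.2) ?_⟩
      intro he
      exact hw.1 (hinj hwS.1 hjS.1 he)
    have h1 := Finset.card_le_card hsub
    rw [Finset.card_erase_of_mem hj] at h1
    have h2 := hjS.2.2
    omega
  · rw [Finset.not_nonempty_iff_eq_empty] at hne
    rw [hne]
    simp

open Classical in
lemma rank_below {ι : Type} (S : Finset ι) (h : ι → ℝ) (hinj : Set.InjOn h S) (c : ℝ) (K : ℕ) :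
    (S.filter fun j => h j < c ∧ (S.filter fun w => h j < h w ∧ h w < c).card ≤ K).card
      ≤ K + 1 := by
  have h1 := rank_above S (fun i => - h i) (fun x hx y hy hxy => hinj hx hy (neg_injective hxy))
    (-c) K
  refine le_trans (Finset.card_le_card ?_) h1
  intro j hj
  rw [Finset.mem_filter] at hj ⊢
  refine ⟨hj.1, neg_lt_neg hj.2.1, le_trans (Finset.card_le_card ?_) hj.2.2⟩
  intro w hw
  rw [Finset.mem_filter] at hw ⊢
  exact ⟨hw.1, neg_lt_neg_iff.1 hw.2.2, neg_lt_neg_iff.1 hw.2.1⟩

/-- `i` and `j` are both alive at time `t` and at most `K` bars alive at time `t` lie strictly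
between them. -/
def Vis {ι : Type} (alive : ι → ℝ → Prop) (h : ι → ℝ) (K : ℕ) (i j : ι) (t : ℝ) : Prop :=
  alive i t ∧ alive j t ∧ h i < h j ∧ {w : ι | alive w t ∧ h i < h w ∧ h w < h j}.encard ≤ K

open Classical in
/-- The number of pairs of bars seeing each other past at most `K` bars is linear. -/
lemma bars_bound {ι : Type} [Fintype ι] (alive : ι → ℝ → Prop) (h : ι → ℝ) (K : ℕ)
    (hconv : ∀ i t₁ t₂ t₃, t₁ ≤ t₂ → t₂ ≤ t₃ → alive i t₁ → alive i t₃ → alive i t₂)
    (hinj : ∀ i j t, alive i t → alive j t → h i = h j → i = j)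
    (E : Finset (ι × ι)) (hE : ∀ e ∈ E, ∃ t, Vis alive h K e.1 e.2 t) :
    E.card ≤ Fintype.card ι * (2 * (K + 1) + (K + 1) * (K + 1)) := by
  choose! wt hwt using hE
  set W : Finset ℝ := E.image wt with hW
  -- alive sets
  let S : ℝ → Finset ι := fun t => Finset.univ.filter fun i => alive i t
  have hSinj : ∀ t, Set.InjOn h (S t) := by
    intro t i hi j hj hij
    have hi' : alive i t := by simpa [S] using hi
    have hj' : alive j t := by simpa [S] using hj
    exact hinj i j t hi' hj' hij
  have hcard : ∀ i j t, {w : ι | alive w t ∧ h i < h w ∧ h w < h j}.encard ≤ K ↔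
      ((S t).filter fun w => h i < h w ∧ h w < h j).card ≤ K := by
    intro i j t
    have : {w : ι | alive w t ∧ h i < h w ∧ h w < h j} =
        (((S t).filter fun w => h i < h w ∧ h w < h j : Finset ι) : Set ι) := by
      ext w
      simp [S]
    rw [this, Set.encard_coe_eq_coe_finsetCard]
    exact_mod_cast Iff.rfl
  let first : ι → ℝ → Prop := fun i t => alive i t ∧ ∀ t' ∈ W, t' < t → ¬ alive i t'
  let nxt : ι → ℝ → Prop := fun z t => ¬ alive z t ∧ (∃ t' ∈ W, t' < t ∧ alive z t') ∧
    ∀ t'' ∈ W, t'' < t → (∃ t' ∈ W, t' < t'' ∧ alive z t') → alive z t''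
  have first_unique : ∀ i, ∀ t₁ ∈ W, ∀ t₂ ∈ W, first i t₁ → first i t₂ → t₁ = t₂ := by
    intro i t₁ ht₁ t₂ ht₂ h1 h2
    rcases lt_trichotomy t₁ t₂ with hlt | heq | hgt
    · exact absurd h1.1 (h2.2 t₁ ht₁ hlt)
    · exact heq
    · exact absurd h2.1 (h1.2 t₂ ht₂ hgt)
  have nxt_unique : ∀ z, ∀ t₁ ∈ W, ∀ t₂ ∈ W, nxt z t₁ → nxt z t₂ → t₁ = t₂ := by
    intro z t₁ ht₁ t₂ ht₂ h1 h2
    rcases lt_trichotomy t₁ t₂ with hlt | heq | hgt
    · exact absurd (h2.2.2 t₁ ht₁ hlt h1.2.1) h1.1
    · exact heq
    · exact absurd (h1.2.2 t₂ ht₂ hgt h2.2.1) h2.1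
  let G1 : ι → Finset (ι × ι) := fun z =>
    Finset.univ.filter fun e => e.1 = z ∧ ∃ t ∈ W, first z t ∧ Vis alive h K e.1 e.2 t
  let G2 : ι → Finset (ι × ι) := fun z =>
    Finset.univ.filter fun e => e.2 = z ∧ ∃ t ∈ W, first z t ∧ Vis alive h K e.1 e.2 t
  let G3 : ι → Finset (ι × ι) := fun z =>
    Finset.univ.filter fun e => h e.1 < h z ∧ h z < h e.2 ∧
      ∃ t ∈ W, nxt z t ∧ Vis alive h K e.1 e.2 t
  have hG1 : ∀ z, (G1 z).card ≤ K + 1 := by
    intro z
    by_cases hz : ∃ t ∈ W, first z t
    · obtain ⟨t, htW, ht⟩ := hz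
      refine le_trans ?_ (rank_above (S t) h (hSinj t) (h z) K)
      apply Finset.card_le_card_of_injOn (fun e => e.2)
      · intro e he
        have he' := (Finset.mem_filter.1 he).2
        obtain ⟨h1, t', ht', hf, hv⟩ := he'
        have : t' = t := first_unique z t' ht' t htW hf ht
        subst this
        have h4 := (hcard _ _ _).1 hv.2.2.2
        rw [h1] at h4
        have h5 := hv.2.2.1
        rw [h1] at h5
        simp only [Finset.coe_filter, Set.mem_ofPred_eq]
        refine ⟨?_, h5, h4⟩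
        simpa [S] using hv.2.1
      · intro e he e' he' hee
        have h1 := (Finset.mem_filter.1 he).2.1
        have h2 := (Finset.mem_filter.1 he').2.1
        exact Prod.ext (h1.trans h2.symm) hee
    · have : G1 z = ∅ := by
        rw [Finset.filter_eq_empty_iff]
        rintro e - ⟨-, t, ht, hf, -⟩
        exact hz ⟨t, ht, hf⟩
      rw [this]
      simp
  have hG2 : ∀ z, (G2 z).card ≤ K + 1 := by
    intro z
    by_cases hz : ∃ t ∈ W, first z t
    · obtain ⟨t, htW, ht⟩ := hz
      refine le_trans ?_ (rank_below (S t) h (hSinj t) (h z) K)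
      apply Finset.card_le_card_of_injOn (fun e => e.1)
      · intro e he
        have he' := (Finset.mem_filter.1 he).2
        obtain ⟨h1, t', ht', hf, hv⟩ := he'
        have : t' = t := first_unique z t' ht' t htW hf ht
        subst this
        have h4 := (hcard _ _ _).1 hv.2.2.2
        rw [h1] at h4
        have h5 := hv.2.2.1
        rw [h1] at h5
        simp only [Finset.coe_filter, Set.mem_ofPred_eq]
        refine ⟨?_, h5, h4⟩
        simpa [S] using hv.1
      · intro e he e' he' hee
        have h1 := (Finset.mem_filter.1 he).2.1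
        have h2 := (Finset.mem_filter.1 he').2.1
        exact Prod.ext hee (h1.trans h2.symm)
    · have : G2 z = ∅ := by
        rw [Finset.filter_eq_empty_iff]
        rintro e - ⟨-, t, ht, hf, -⟩
        exact hz ⟨t, ht, hf⟩
      rw [this]
      simp
  have hG3 : ∀ z, (G3 z).card ≤ (K + 1) * (K + 1) := by
    intro z
    by_cases hz : ∃ t ∈ W, nxt z t
    · obtain ⟨t, htW, ht⟩ := hz
      have hsub : G3 z ⊆
          ((S t).filter fun j => h j < h z ∧
            ((S t).filter fun w => h j < h w ∧ h w < h z).card ≤ K) ×ˢ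
          ((S t).filter fun j => h z < h j ∧
            ((S t).filter fun w => h z < h w ∧ h w < h j).card ≤ K) := by
        intro e he
        obtain ⟨h1, h2, t', ht', hf, hv⟩ := (Finset.mem_filter.1 he).2
        have : t' = t := nxt_unique z t' ht' t htW hf ht
        subst this
        have h4 := (hcard _ _ _).1 hv.2.2.2
        refine Finset.mem_product.2 ⟨Finset.mem_filter.2
            ⟨by simpa [S] using hv.1, h1, le_trans (Finset.card_le_card ?_) h4⟩,
          Finset.mem_filter.2
            ⟨by simpa [S] using hv.2.1, h2, le_trans (Finset.card_le_card ?_) h4⟩⟩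
        · intro w hw
          rw [Finset.mem_filter] at hw ⊢
          exact ⟨hw.1, hw.2.1, hw.2.2.trans h2⟩
        · intro w hw
          rw [Finset.mem_filter] at hw ⊢
          exact ⟨hw.1, h1.trans hw.2.1, hw.2.2⟩
      refine (Finset.card_le_card hsub).trans ?_
      rw [Finset.card_product]
      exact Nat.mul_le_mul (rank_below _ h (hSinj t) _ K) (rank_above _ h (hSinj t) _ K)
    · have : G3 z = ∅ := by
        rw [Finset.filter_eq_empty_iff]
        rintro e - ⟨-, -, t, ht, hf, -⟩
        exact hz ⟨t, ht, hf⟩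
      rw [this]
      simp
  have hcover : E ⊆ Finset.univ.biUnion fun z => G1 z ∪ G2 z ∪ G3 z := by
    intro e he
    -- the first witness time
    have hne : (W.filter fun t => Vis alive h K e.1 e.2 t).Nonempty :=
      ⟨wt e, Finset.mem_filter.2 ⟨Finset.mem_image_of_mem _ he, hwt e he⟩⟩
    obtain ⟨t, ht, hmin⟩ := (W.filter fun t => Vis alive h K e.1 e.2 t).exists_min_image id hne
    rw [Finset.mem_filter] at ht
    obtain ⟨htW, hv⟩ := ht
    have hmin' : ∀ t' ∈ W, t' < t → ¬ Vis alive h K e.1 e.2 t' := by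
      intro t' ht' hlt hv'
      have := hmin t' (Finset.mem_filter.2 ⟨ht', hv'⟩)
      simp only [id] at this
      linarith
    rw [Finset.mem_biUnion]
    by_cases hp : (W.filter fun t' => t' < t).Nonempty
    · obtain ⟨p, hpm, hpmax⟩ := (W.filter fun t' => t' < t).exists_max_image id hp
      rw [Finset.mem_filter] at hpm
      obtain ⟨hpW, hpt⟩ := hpm
      have hpmax' : ∀ t' ∈ W, t' < t → t' ≤ p := fun t' ht' hlt =>
        hpmax t' (Finset.mem_filter.2 ⟨ht', hlt⟩)
      by_cases h1 : alive e.1 p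
      · by_cases h2 : alive e.2 p
        · have hnv := hmin' p hpW hpt
          have h3 : ¬ ((S p).filter fun w => h e.1 < h w ∧ h w < h e.2).card ≤ K := by
            intro hc
            exact hnv ⟨h1, h2, hv.2.2.1, (hcard _ _ _).2 hc⟩
          have h4 := (hcard _ _ _).1 hv.2.2.2
          have h5 : ∃ z ∈ (S p).filter fun w => h e.1 < h w ∧ h w < h e.2,
              z ∉ (S t).filter fun w => h e.1 < h w ∧ h w < h e.2 := by
            by_contra hcon
            push Not at hcon
            exact h3 ((Finset.card_le_card hcon).trans h4)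
          obtain ⟨z, hz1, hz2⟩ := h5
          rw [Finset.mem_filter] at hz1
          have hzp : alive z p := by simpa [S] using hz1.1
          have hzt : ¬ alive z t := by
            intro hzt
            apply hz2
            rw [Finset.mem_filter]
            exact ⟨by simpa [S] using hzt, hz1.2⟩
          refine ⟨z, Finset.mem_univ _, ?_⟩
          rw [Finset.mem_union]
          right
          refine Finset.mem_filter.2 ⟨Finset.mem_univ _, hz1.2.1, hz1.2.2, t, htW, ?_, hv⟩
          refine ⟨hzt, ⟨p, hpW, hpt, hzp⟩, ?_⟩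
          rintro t'' ht'' hlt ⟨t', ht', hlt', hal⟩
          exact hconv z t' t'' p hlt'.le (hpmax' t'' ht'' hlt) hal hzp
        · refine ⟨e.2, Finset.mem_univ _, ?_⟩
          rw [Finset.mem_union, Finset.mem_union]
          left; right
          refine Finset.mem_filter.2 ⟨Finset.mem_univ _, rfl, t, htW, ⟨hv.2.1, ?_⟩, hv⟩
          intro t' ht' hlt hal
          exact h2 (hconv e.2 t' p t (hpmax' t' ht' hlt) hpt.le hal hv.2.1)
      · refine ⟨e.1, Finset.mem_univ _, ?_⟩
        rw [Finset.mem_union, Finset.mem_union]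
        left; left
        refine Finset.mem_filter.2 ⟨Finset.mem_univ _, rfl, t, htW, ⟨hv.1, ?_⟩, hv⟩
        intro t' ht' hlt hal
        exact h1 (hconv e.1 t' p t (hpmax' t' ht' hlt) hpt.le hal hv.1)
    · refine ⟨e.1, Finset.mem_univ _, ?_⟩
      rw [Finset.mem_union, Finset.mem_union]
      left; left
      refine Finset.mem_filter.2 ⟨Finset.mem_univ _, rfl, t, htW, ⟨hv.1, ?_⟩, hv⟩
      intro t' ht' hlt
      exact absurd ⟨t', Finset.mem_filter.2 ⟨ht', hlt⟩⟩ hp
  refine (Finset.card_le_card hcover).trans ?_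
  have h1 := Finset.card_biUnion_le_card_mul (Finset.univ : Finset ι)
    (fun z => G1 z ∪ G2 z ∪ G3 z) (2 * (K + 1) + (K + 1) * (K + 1)) (by
      intro z _
      refine (Finset.card_union_le _ _).trans ?_
      have := Finset.card_union_le (G1 z) (G2 z)
      have := hG1 z
      have := hG2 z
      have := hG3 z
      omega)
  rwa [Finset.card_univ] at h1

end Bars

/-! ### Complete arc visibility graphs have bounded order -/

section Complete

/-- the copy numbers `-1, …, 3` -/
def cp (m : Fin 5) : ℤ := (m : ℕ) - 1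

lemma cp_inj {m n : Fin 5} (h : cp m = cp n) : m = n := by
  unfold cp at h
  apply Fin.ext
  omega

lemma even_of_hgt_eq {A B : Arc} {m n : ℤ} (h : hgt A m = hgt B n) : (Even m ↔ Even n) := by
  have hA := A.hr
  have hB := B.hr
  unfold hgt at h
  split_ifs at h with h1 h2 h2
  · exact ⟨fun _ => h2, fun _ => h1⟩
  · exfalso; linarith
  · exfalso; linarith
  · exact ⟨fun h => absurd h h1, fun h => absurd h h2⟩

lemma copy_unique (A : Arc) {m n : ℤ} {φ : ℝ} (h1 : A.a ≤ φ + m * Real.pi)
    (h2 : φ + m * Real.pi ≤ A.b) (h3 : A.a ≤ φ + n * Real.pi) (h4 : φ + n * Real.pi ≤ A.b)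
    (he : Even m ↔ Even n) : m = n := by
  have hpi := Real.pi_pos
  have hb := A.hb
  by_contra hne
  have key : ∀ p q : ℤ, (Even p ↔ Even q) → p < q → A.a ≤ φ + p * Real.pi →
      φ + q * Real.pi ≤ A.b → False := by
    intro p q hpq hlt h5 h6
    have h7 : p + 2 ≤ q := by
      rcases Int.even_or_odd p with h | h
      · have h' := hpq.1 h
        obtain ⟨x, hx⟩ := h
        obtain ⟨y, hy⟩ := h'
        omega
      · have h' : Odd q := by
          rw [← Int.not_even_iff_odd] at h ⊢
          exact fun hq => h (hpq.2 hq)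
        obtain ⟨x, hx⟩ := h
        obtain ⟨y, hy⟩ := h'
        omega
    have h8 : (p : ℝ) + 2 ≤ q := by exact_mod_cast h7
    have h9 : ((p : ℝ) + 2) * Real.pi ≤ q * Real.pi := mul_le_mul_of_nonneg_right h8 hpi.le
    linarith
  rcases lt_or_gt_of_ne hne with h | h
  · exact key m n he h h1 h4
  · exact key n m he.symm h h3 h2

variable {V : Type}

/-- The bar `(v, m)` is alive over direction `φ ∈ [0, 2π)`. -/
def alv (A : V → Arc) (i : V × Fin 5) (φ : ℝ) : Prop :=
  (A i.1).a ≤ φ + cp i.2 * Real.pi ∧ φ + cp i.2 * Real.pi ≤ (A i.1).b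

noncomputable def ht (A : V → Arc) (i : V × Fin 5) : ℝ := hgt (A i.1) (cp i.2)

lemma alv_conv (A : V → Arc) (i : V × Fin 5) (t₁ t₂ t₃ : ℝ) (h1 : t₁ ≤ t₂) (h2 : t₂ ≤ t₃)
    (h3 : alv A i t₁) (h4 : alv A i t₃) : alv A i t₂ := by
  unfold alv at *
  constructor
  · linarith [h3.1]
  · linarith [h4.2]

lemma alv_inj (A : V → Arc)
    (hd : ∀ u v, u ≠ v → Disjoint (A u).carrier (A v).carrier) (i j : V × Fin 5) (t : ℝ)
    (hi : alv A i t) (hj : alv A j t) (hij : ht A i = ht A j) : i = j := by
  have h1 : i.1 = j.1 := by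
    by_contra hne
    have := hd _ _ hne
    rw [Set.disjoint_left] at this
    apply this (a := pt (ht A i) t)
    · rw [mem_carrier_iff]
      exact ⟨cp i.2, hi.1, hi.2, rfl⟩
    · rw [hij, mem_carrier_iff]
      exact ⟨cp j.2, hj.1, hj.2, rfl⟩
  have h2 : cp i.2 = cp j.2 := by
    unfold alv at hi hj
    rw [← h1] at hj
    exact copy_unique (A i.1) hi.1 hi.2 hj.1 hj.2 (even_of_hgt_eq hij)
  exact Prod.ext h1 (cp_inj h2)

lemma exists_copy (A : V → Arc) (v : V) (x φ : ℝ) (h0 : 0 ≤ φ) (h1 : φ < 2 * Real.pi)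
    (h : pt x φ ∈ (A v).carrier) : ∃ m : Fin 5, alv A (v, m) φ ∧ ht A (v, m) = x := by
  rw [mem_carrier_iff] at h
  obtain ⟨m, h2, h3, rfl⟩ := h
  have hpi := Real.pi_pos
  have ha0 := (A v).ha0
  have ha1 := (A v).ha1
  have hb := (A v).hb
  have h4 : (-2 : ℝ) * Real.pi < m * Real.pi := by linarith
  have h5 : (m : ℝ) * Real.pi < 4 * Real.pi := by linarith
  have h6 := lt_of_mul_lt_mul_right h4 hpi.le
  have h7 := lt_of_mul_lt_mul_right h5 hpi.le
  have h8 : (-2 : ℤ) < m := by exact_mod_cast h6
  have h9 : m < 4 := by exact_mod_cast h7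
  obtain ⟨n, hn⟩ : ∃ n : ℕ, m + 1 = n := Int.eq_ofNat_of_zero_le (by omega)
  have hn5 : n < 5 := by omega
  have hcp : cp ⟨n, hn5⟩ = m := by
    unfold cp
    simp only
    omega
  refine ⟨⟨n, hn5⟩, ?_, ?_⟩
  · unfold alv
    rw [hcp]
    exact ⟨h2, h3⟩
  · unfold ht
    rw [hcp]

lemma ht_abs (A : V → Arc) (i : V × Fin 5) : |ht A i| = (A i.1).r := hgt_abs _ _

lemma pt_mod (φ : ℝ) : ∃ φ' : ℝ, 0 ≤ φ' ∧ φ' < 2 * Real.pi ∧ ∀ y, pt y φ = pt y φ' := by
  have hpi := Real.pi_pos
  refine ⟨φ - ⌊φ / (2 * Real.pi)⌋ * (2 * Real.pi), ?_, ?_, ?_⟩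
  · have := Int.floor_le (φ / (2 * Real.pi))
    rw [le_div_iff₀ (by positivity)] at this
    linarith
  · have := Int.lt_floor_add_one (φ / (2 * Real.pi))
    rw [div_lt_iff₀ (by positivity)] at this
    linarith
  · intro y
    set n := ⌊φ / (2 * Real.pi)⌋
    have h := pt_shift y (φ - n * (2 * Real.pi)) (2 * n)
    rw [if_pos ⟨n, by ring⟩] at h
    rw [← h]
    congr 1
    push_cast
    ring

lemma arcVis_imp (A : V → Arc) [Fintype V] (k : ℕ)
    (hd : ∀ u v, u ≠ v → Disjoint (A u).carrier (A v).carrier) (u v : V) (huv : u ≠ v)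
    (h : KVisible k A u v) :
    ∃ m n : Fin 5, (∃ t, Vis (alv A) (ht A) (2 * k + 2) (u, m) (v, n) t) ∨
      (∃ t, Vis (alv A) (ht A) (2 * k + 2) (v, n) (u, m) t) := by
  classical
  obtain ⟨φ, s, t, h1, h2, h3⟩ := h
  obtain ⟨φ', hφ0, hφ1, hφ⟩ := pt_mod φ
  simp only [hφ] at h1 h2 h3
  obtain ⟨m, hm1, hm2⟩ := exists_copy A u s φ' hφ0 hφ1 h1
  obtain ⟨n, hn1, hn2⟩ := exists_copy A v t φ' hφ0 hφ1 h2
  have hst : s ≠ t := by
    intro he
    rw [← he] at hn2
    have := alv_inj A hd _ _ _ hm1 hn1 (hm2.trans hn2.symm)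
    exact huv (congrArg Prod.fst this)
  -- bars strictly between
  have hbound : {w : V × Fin 5 | alv A w φ' ∧ min s t < ht A w ∧ ht A w < max s t}.encard
      ≤ ((2 * k + 2 : ℕ) : ℕ∞) := by
    set Bl : Set V := {w : V | w ≠ u ∧ w ≠ v ∧ ∃ x ∈ Set.uIcc s t, pt x φ' ∈ (A w).carrier}
    set X := {w : V × Fin 5 | alv A w φ' ∧ min s t < ht A w ∧ ht A w < max s t}
    -- map to (arc, sign)
    have hinj : Set.InjOn (fun w : V × Fin 5 => (w.1, decide (0 < ht A w))) X := by
      intro w hw w' hw' hww
      simp only [Prod.mk.injEq, decide_eq_decide] at hww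
      apply alv_inj A hd _ _ _ hw.1 hw'.1
      have ha := ht_abs A w
      have ha' := ht_abs A w'
      rw [hww.1] at ha
      have hr := (A w'.1).hr
      by_cases hp : 0 < ht A w
      · have hp' := hww.2.1 hp
        rw [abs_of_pos hp] at ha
        rw [abs_of_pos hp'] at ha'
        rw [ha, ha']
      · have hp' : ¬ 0 < ht A w' := fun h => hp (hww.2.2 h)
        rw [abs_of_nonpos (not_lt.1 hp)] at ha
        rw [abs_of_nonpos (not_lt.1 hp')] at ha'
        linarith
    have hBfin : Bl.Finite := Set.toFinite _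
    have hmaps : (fun w : V × Fin 5 => (w.1, decide (0 < ht A w))) '' X ⊆
        (Bl ×ˢ (Set.univ : Set Bool)) ∪
          {(u, decide (¬ 0 < s)), (v, decide (¬ 0 < t))} := by
      rintro _ ⟨w, ⟨hw1, hw2, hw3⟩, rfl⟩
      simp only [Set.mem_union, Set.mem_prod, Set.mem_univ, and_true, Set.mem_insert_iff,
        Set.mem_singleton_iff, Prod.mk.injEq]
      by_cases hwu : w.1 = u
      · right; left
        refine ⟨hwu, ?_⟩
        have ha := ht_abs A w
        have hs := ht_abs A (u, m)
        rw [hm2] at hs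
        simp only at hs
        rw [hwu, ← hs] at ha
        have hne : ht A w ≠ s := by
          intro he
          rw [he] at hw2 hw3
          rcases le_total s t with h | h
          · rw [min_eq_left h] at hw2; linarith
          · rw [max_eq_left h] at hw3; linarith
        have h4 : ht A w = -s := by
          rcases abs_eq_abs.1 ha with h | h
          · exact absurd h hne
          · exact h
        have hs0 : s ≠ 0 := by
          intro h0
          rw [h0, abs_zero] at hs
          exact (A u).hr.ne hs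
        rw [h4, decide_eq_decide]
        constructor
        · intro h5
          linarith
        · intro h5
          rcases lt_or_gt_of_ne hs0 with h6 | h6
          · linarith
          · exact absurd h6 h5
      · by_cases hwv : w.1 = v
        · right; right
          refine ⟨hwv, ?_⟩
          have ha := ht_abs A w
          have hs := ht_abs A (v, n)
          rw [hn2] at hs
          simp only at hs
          rw [hwv, ← hs] at ha
          have hne : ht A w ≠ t := by
            intro he
            rw [he] at hw2 hw3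
            rcases le_total s t with h | h
            · rw [max_eq_right h] at hw3; linarith
            · rw [min_eq_right h] at hw2; linarith
          have h4 : ht A w = -t := by
            rcases abs_eq_abs.1 ha with h | h
            · exact absurd h hne
            · exact h
          have hs0 : t ≠ 0 := by
            intro h0
            rw [h0, abs_zero] at hs
            exact (A v).hr.ne hs
          rw [h4, decide_eq_decide]
          constructor
          · intro h5
            linarith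
          · intro h5
            rcases lt_or_gt_of_ne hs0 with h6 | h6
            · linarith
            · exact absurd h6 h5
        · left
          refine ⟨hwu, hwv, ht A w, ⟨hw2.le, hw3.le⟩, ?_⟩
          rw [mem_carrier_iff]
          exact ⟨cp w.2, hw1.1, hw1.2, rfl⟩
    rw [← hinj.encard_image]
    refine (Set.encard_le_encard hmaps).trans ?_
    refine (Set.encard_union_le _ _).trans ?_
    have hprod : (Bl ×ˢ (Set.univ : Set Bool)).encard ≤ 2 * k := by
      have h5 : Bl.encard = (hBfin.toFinset.card : ℕ∞) := by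
        rw [← Set.encard_coe_eq_coe_finsetCard, hBfin.coe_toFinset]
      have h6 : (Bl ×ˢ (Set.univ : Set Bool)) =
          ((hBfin.toFinset ×ˢ (Finset.univ : Finset Bool) : Finset (V × Bool)) : Set _) := by
        rw [Finset.coe_product, hBfin.coe_toFinset, Finset.coe_univ]
      rw [h6, Set.encard_coe_eq_coe_finsetCard, Finset.card_product]
      rw [h5] at h3
      have h7 : hBfin.toFinset.card ≤ k := by exact_mod_cast h3
      have h8 : (Finset.univ : Finset Bool).card = 2 := by simp
      rw [h8]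
      have : hBfin.toFinset.card * 2 ≤ 2 * k := by omega
      exact_mod_cast this
    have hpair : ({(u, decide (¬ 0 < s)), (v, decide (¬ 0 < t))} : Set (V × Bool)).encard ≤ 2 :=
      (Set.encard_insert_le _ _).trans (by rw [Set.encard_singleton]; norm_num)
    calc _ ≤ (2 * k : ℕ∞) + 2 := add_le_add hprod hpair
      _ = ((2 * k + 2 : ℕ) : ℕ∞) := by push_cast; rfl
  rcases lt_or_gt_of_ne hst with hlt | hlt
  · refine ⟨m, n, Or.inl ⟨φ', hm1, hn1, by rw [hm2, hn2]; exact hlt, ?_⟩⟩
    rw [min_eq_left hlt.le, max_eq_right hlt.le] at hbound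
    rw [hm2, hn2]
    exact hbound
  · refine ⟨m, n, Or.inr ⟨φ', hn1, hm1, by rw [hm2, hn2]; exact hlt, ?_⟩⟩
    rw [min_eq_right hlt.le, max_eq_left hlt.le] at hbound
    rw [hm2, hn2]
    exact hbound

/-- Complete arc `k`-visibility graphs have bounded order. -/
lemma complete_bounded (k : ℕ) : ∃ N : ℕ, ∀ n : ℕ, N ≤ n →
    ¬ IsArcVisibility k (⊤ : SimpleGraph (Fin n)) := by
  classical
  set C := 2 * (2 * k + 2 + 1) + (2 * k + 2 + 1) * (2 * k + 2 + 1) with hC
  refine ⟨10 * C + 2, fun n hn ⟨A, hd, hA⟩ => ?_⟩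
  have hvis : ∀ u v : Fin n, u ≠ v → KVisible k A u v := fun u v huv =>
    (hA u v huv).1 ((SimpleGraph.top_adj u v).2 huv)
  have hpair : ∀ p : Fin n × Fin n, p.1 < p.2 → ∃ e : (Fin n × Fin 5) × (Fin n × Fin 5),
      (∃ t, Vis (alv A) (ht A) (2 * k + 2) e.1 e.2 t) ∧
        ((e.1.1 = p.1 ∧ e.2.1 = p.2) ∨ (e.1.1 = p.2 ∧ e.2.1 = p.1)) := by
    intro p hp
    obtain ⟨a, b, h | h⟩ := arcVis_imp A k hd p.1 p.2 hp.ne (hvis _ _ hp.ne)
    · exact ⟨((p.1, a), (p.2, b)), h, Or.inl ⟨rfl, rfl⟩⟩
    · exact ⟨((p.2, b), (p.1, a)), h, Or.inr ⟨rfl, rfl⟩⟩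
  have hnn : Nonempty (Fin n) := ⟨⟨0, by omega⟩⟩
  choose! f hf1 hf2 using hpair
  set P : Finset (Fin n × Fin n) := Finset.univ.filter fun p => p.1 < p.2 with hP
  have hinj : Set.InjOn f (P : Set (Fin n × Fin n)) := by
    intro p hp q hq hpq
    have hp' : p.1 < p.2 := by simpa [hP] using hp
    have hq' : q.1 < q.2 := by simpa [hP] using hq
    have h1 := hf2 p hp'
    have h2 := hf2 q hq'
    rw [hpq] at h1
    rcases h1 with ⟨h3, h4⟩ | ⟨h3, h4⟩ <;> rcases h2 with ⟨h5, h6⟩ | ⟨h5, h6⟩
    · exact Prod.ext (h3.symm.trans h5) (h4.symm.trans h6)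
    · exfalso
      rw [← h3, h5, ← h4, h6] at hp'
      exact absurd hp' (not_lt.2 hq'.le)
    · exfalso
      rw [← h3, h5, ← h4, h6] at hp'
      exact absurd hp' (not_lt.2 hq'.le)
    · exact Prod.ext (h4.symm.trans h6) (h3.symm.trans h5)
  have hb := bars_bound (alv A) (ht A) (2 * k + 2) (alv_conv A) (alv_inj A hd) (P.image f) (by
    intro e he
    obtain ⟨p, hp, rfl⟩ := Finset.mem_image.1 he
    exact hf1 p (by simpa [hP] using hp))
  rw [Finset.card_image_of_injOn hinj] at hb
  have hcardι : Fintype.card (Fin n × Fin 5) = n * 5 := by simp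
  rw [hcardι] at hb
  -- `|P| = n (n-1) / 2`
  have hPcard : n * n ≤ 2 * P.card + n := by
    have h1 : (Finset.univ : Finset (Fin n × Fin n)) ⊆
        (P ∪ P.image Prod.swap) ∪ (Finset.univ.image fun i : Fin n => (i, i)) := by
      rintro ⟨a, b⟩ -
      rw [Finset.mem_union, Finset.mem_union]
      rcases lt_trichotomy a b with h | h | h
      · left; left
        simp [hP, h]
      · right
        simp [h]
      · left; right
        rw [Finset.mem_image]
        exact ⟨(b, a), by simp [hP, h], rfl⟩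
    have h2 := Finset.card_le_card h1
    rw [Finset.card_univ, Fintype.card_prod, Fintype.card_fin] at h2
    have h3 := Finset.card_union_le (P ∪ P.image Prod.swap)
      (Finset.univ.image fun i : Fin n => (i, i))
    have h4 := Finset.card_union_le P (P.image Prod.swap)
    have h5 : (P.image Prod.swap).card ≤ P.card := Finset.card_image_le
    have h6 : (Finset.univ.image fun i : Fin n => (i, i)).card ≤ n := by
      refine Finset.card_image_le.trans ?_
      simp
    omega
  rw [← hC] at hb
  have h7 : n * n ≤ 2 * (n * 5 * C) + n := by omega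
  have h8 : n * n ≤ n * (10 * C + 1) := by
    calc n * n ≤ 2 * (n * 5 * C) + n := h7
      _ = n * (10 * C + 1) := by ring
  have h9 : n ≤ 10 * C + 1 := Nat.le_of_mul_le_mul_left h8 (by omega)
  omega

end Complete

/-! ### Adding one arc to a complete representation -/

section Step

variable {V W : Type}

lemma KVisible_equiv (e : V ≃ W) (k : ℕ) (A : W → Arc) (u v : V) :
    KVisible k (fun x => A (e x)) u v ↔ KVisible k A (e u) (e v) := by
  unfold KVisible
  have key : ∀ φ s t : ℝ,
      {w : V | w ≠ u ∧ w ≠ v ∧ ∃ x ∈ Set.uIcc s t, pt x φ ∈ (A (e w)).carrier}.encard =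
      {w : W | w ≠ e u ∧ w ≠ e v ∧ ∃ x ∈ Set.uIcc s t, pt x φ ∈ (A w).carrier}.encard := by
    intro φ s t
    rw [← Set.encard_preimage_of_bijective e.bijective]
    congr 1
    ext w
    simp
  simp only [key]

lemma complete_equiv (e : V ≃ W) (k : ℕ) (h : IsArcVisibility k (⊤ : SimpleGraph W)) :
    IsArcVisibility k (⊤ : SimpleGraph V) := by
  obtain ⟨A, hd, hA⟩ := h
  refine ⟨fun x => A (e x), fun u v huv => hd _ _ (e.injective.ne huv), fun u v huv => ?_⟩
  rw [KVisible_equiv, ← hA _ _ (e.injective.ne huv), SimpleGraph.top_adj, SimpleGraph.top_adj]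
  simp

lemma complete_mono {k l : ℕ} (hkl : k ≤ l) (h : IsArcVisibility k (⊤ : SimpleGraph V)) :
    IsArcVisibility l (⊤ : SimpleGraph V) := by
  obtain ⟨A, hd, hA⟩ := h
  refine ⟨A, hd, fun u v huv => ?_⟩
  rw [SimpleGraph.top_adj]
  exact ⟨fun _ => KVisible_mono hkl ((hA u v huv).1 ((SimpleGraph.top_adj u v).2 huv)),
    fun _ => huv⟩

lemma exists_radius [Finite V] (A : V → Arc) (x : V) :
    ∃ r' : ℝ, (A x).r < r' ∧ ∀ w, (A w).r ≤ (A x).r ∨ r' < (A w).r := by
  have h : ∀ᶠ r' in nhdsWithin (A x).r (Set.Ioi (A x).r),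
      (A x).r < r' ∧ ∀ w, (A w).r ≤ (A x).r ∨ r' < (A w).r := by
    refine Filter.Eventually.and self_mem_nhdsWithin ?_
    rw [Filter.eventually_all]
    intro w
    by_cases hw : (A w).r ≤ (A x).r
    · exact Filter.Eventually.of_forall fun _ => Or.inl hw
    · push Not at hw
      filter_upwards [Ioo_mem_nhdsGT hw] with r' hr'
      exact Or.inr hr'.2
  exact h.exists

/-- The new arc: a copy of `X` with radius `r'`. -/
noncomputable def widen (X : Arc) (r' : ℝ) (h : 0 < r') : Arc where
  r := r'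
  a := X.a
  b := X.b
  hr := h
  ha0 := X.ha0
  ha1 := X.ha1
  hab := X.hab
  hb := X.hb

lemma complete_step [Finite V] (x : V) (k : ℕ) (h : IsArcVisibility k (⊤ : SimpleGraph V)) :
    IsArcVisibility (k + 1) (⊤ : SimpleGraph (Option V)) := by
  classical
  obtain ⟨A, hd, hA⟩ := h
  have hvis : ∀ u v : V, u ≠ v → KVisible k A u v := fun u v huv =>
    (hA u v huv).1 ((SimpleGraph.top_adj u v).2 huv)
  obtain ⟨r', hr1, hr2⟩ := exists_radius A x
  have hr0 : 0 < r' := (A x).hr.trans hr1
  set B : Option V → Arc := fun o => o.elim (widen (A x) r' hr0) A with hB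
  have hBn : B none = widen (A x) r' hr0 := rfl
  have hBs : ∀ v, B (some v) = A v := fun v => rfl
  have hrne : ∀ v, (A v).r ≠ r' := by
    intro v
    rcases hr2 v with h | h
    · exact (h.trans_lt hr1).ne
    · exact h.ne'
  have hnorm : ∀ (X : Arc) (y φ : ℝ), pt y φ ∈ X.carrier → |y| = X.r := by
    intro X y φ hy
    obtain ⟨m, -, -, rfl⟩ := (mem_carrier_iff X y φ).1 hy
    exact hgt_abs X m
  have hdn : ∀ v, Disjoint (B none).carrier (B (some v)).carrier := by
    intro v
    rw [Set.disjoint_left]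
    rintro z ⟨φ, hφ, rfl⟩ hz
    have h1 := hnorm _ _ _ hz
    have h2 : |(B none).r| = r' := abs_of_pos hr0
    rw [h2] at h1
    exact hrne v h1.symm
  have hdB : ∀ u v, u ≠ v → Disjoint (B u).carrier (B v).carrier := by
    intro u v huv
    cases u with
    | none =>
      cases v with
      | none => exact absurd rfl huv
      | some v => exact hdn v
    | some u =>
      cases v with
      | none => exact (hdn u).symm
      | some v => exact hd u v (fun h => huv (congrArg some h))
  -- a position of an old arc at radius between `r_x` and `r'` on a line through `x`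
  have hclose : ∀ (w : V) (φ y s : ℝ), pt s φ ∈ (A x).carrier → pt y φ ∈ (A w).carrier →
      (|y| ≤ r') → (|s| ≤ |y|) → (0 < s ↔ 0 < y) → w = x := by
    intro w φ y s hs hy hy1 hy2 hsg
    have h1 := hnorm _ _ _ hs
    have h2 := hnorm _ _ _ hy
    have h3 : (A w).r = (A x).r := by
      rcases hr2 w with h | h
      · apply le_antisymm h
        rw [← h1, ← h2]
        exact hy2
      · rw [← h2] at h
        linarith
    have h4 : y = s := by
      rw [h3] at h2
      rw [← h1] at h2
      by_cases hp : 0 < s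
      · rw [abs_of_pos hp, abs_of_pos (hsg.1 hp)] at h2
        exact h2
      · have hp' : ¬ 0 < y := fun h => hp (hsg.2 h)
        rw [abs_of_nonpos (not_lt.1 hp), abs_of_nonpos (not_lt.1 hp')] at h2
        linarith
    by_contra hne
    have := hd _ _ hne
    rw [Set.disjoint_left] at this
    rw [h4] at hy
    exact this hy hs
  have hnx : KVisible (k + 1) B none (some x) := by
    have h1 : pt (A x).r (A x).a ∈ (A x).carrier := ⟨(A x).a, ⟨le_refl _, (A x).hab⟩, rfl⟩
    refine ⟨(A x).a, r', (A x).r, ⟨(A x).a, ⟨le_refl _, (A x).hab⟩, rfl⟩, h1, ?_⟩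
    have : {w : Option V | w ≠ none ∧ w ≠ some x ∧ ∃ y ∈ Set.uIcc r' (A x).r,
        pt y (A x).a ∈ (B w).carrier} = ∅ := by
      rw [Set.eq_empty_iff_forall_notMem]
      rintro w ⟨hw1, hw2, y, hy, hyw⟩
      cases w with
      | none => exact hw1 rfl
      | some w =>
        apply hw2
        rw [Set.uIcc_comm, Set.uIcc_of_le hr1.le] at hy
        have hy0 : 0 < y := (A x).hr.trans_le hy.1
        rw [hclose w _ y (A x).r h1 hyw (by rw [abs_of_pos hy0]; exact hy.2)
          (by rw [abs_of_pos hy0, abs_of_pos (A x).hr]; exact hy.1)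
          ⟨fun _ => hy0, fun _ => (A x).hr⟩]
    rw [this]
    simp
  have hadd : ∀ (S : Set V) (o : Option V), S.encard ≤ k →
      (insert o (some '' S)).encard ≤ ((k + 1 : ℕ) : ℕ∞) := by
    intro S o hS
    refine (Set.encard_insert_le _ _).trans ?_
    rw [Function.Injective.encard_image (Option.some_injective V)]
    push_cast
    exact add_le_add hS le_rfl
  have hss : ∀ u v : V, u ≠ v → KVisible (k + 1) B (some u) (some v) := by
    intro u v huv
    obtain ⟨φ, s, t, h1, h2, h3⟩ := hvis u v huv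
    refine ⟨φ, s, t, h1, h2, le_trans (Set.encard_le_encard ?_) (hadd _ none h3)⟩
    rintro w ⟨hw1, hw2, hw3⟩
    cases w with
    | none => exact Set.mem_insert _ _
    | some w =>
      apply Set.mem_insert_of_mem
      exact ⟨w, ⟨fun h => hw1 (congrArg some h), fun h => hw2 (congrArg some h), hw3⟩, rfl⟩
  have hns : ∀ v : V, KVisible (k + 1) B none (some v) := by
    intro v
    by_cases hvx : v = x
    · rw [hvx]
      exact hnx
    · obtain ⟨φ, s, t, h1, h2, h3⟩ := hvis x v (Ne.symm hvx)
      obtain ⟨m, hm1, hm2, hm3⟩ := (mem_carrier_iff _ _ _).1 h1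
      have hs' : pt (hgt (B none) m) φ ∈ (B none).carrier := by
        rw [mem_carrier_iff]
        exact ⟨m, hm1, hm2, rfl⟩
      refine ⟨φ, hgt (B none) m, t, hs', h2, le_trans (Set.encard_le_encard ?_)
        (hadd _ (some x) h3)⟩
      rintro w ⟨hw1, hw2, y, hy, hyw⟩
      cases w with
      | none => exact absurd rfl hw1
      | some w =>
        by_cases hwx : w = x
        · rw [hwx]
          exact Set.mem_insert _ _
        · apply Set.mem_insert_of_mem
          refine ⟨w, ⟨hwx, fun h => hw2 (congrArg some h), y, ?_, hyw⟩, rfl⟩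
          rcases Set.uIcc_subset_uIcc_union_uIcc (b := s) hy with hy' | hy'
          · exfalso
            apply hwx
            rw [hm3] at hy'
            rw [hm3] at h1
            have hxr := (A x).hr
            have hBr : (B none).r = r' := rfl
            apply hclose w φ y _ h1 hyw
            · unfold hgt at hy'
              rw [hBr] at hy'
              split_ifs at hy' with hev
              · rw [Set.uIcc_comm, Set.uIcc_of_le hr1.le] at hy'
                rw [abs_of_pos (by linarith [hy'.1])]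
                exact hy'.2
              · rw [Set.uIcc_of_le (by linarith)] at hy'
                rw [abs_of_neg (by linarith [hy'.2])]
                linarith [hy'.1]
            · unfold hgt at hy' ⊢
              rw [hBr] at hy'
              split_ifs at hy' ⊢ with hev
              · rw [Set.uIcc_comm, Set.uIcc_of_le hr1.le] at hy'
                have hy0 : 0 < y := by linarith [hy'.1]
                rw [abs_of_pos hy0, abs_of_pos hxr]
                exact hy'.1
              · rw [Set.uIcc_of_le (by linarith)] at hy'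
                have hy0 : y < 0 := by linarith [hy'.2]
                have hx0 : -(A x).r < 0 := by linarith
                rw [abs_of_neg hy0, abs_of_neg hx0]
                linarith [hy'.2]
            · unfold hgt at hy' ⊢
              rw [hBr] at hy'
              split_ifs at hy' ⊢ with hev
              · rw [Set.uIcc_comm, Set.uIcc_of_le hr1.le] at hy'
                exact ⟨fun _ => by linarith [hy'.1], fun _ => hxr⟩
              · rw [Set.uIcc_of_le (by linarith)] at hy'
                constructor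
                · intro h; linarith
                · intro h; linarith [hy'.2]
          · exact hy'
  refine ⟨B, hdB, fun u v huv => ?_⟩
  rw [SimpleGraph.top_adj]
  refine ⟨fun _ => ?_, fun _ => huv⟩
  cases u with
  | none =>
    cases v with
    | none => exact absurd rfl huv
    | some v => exact hns v
  | some u =>
    cases v with
    | none => exact KVisible_symm (hns u)
    | some v => exact hss u v (fun h => huv (congrArg some h))

/-- `A_j` is not contained in `A_i` when `i < j`: a complete graph. -/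
lemma larger (i j : ℕ) (hij : i < j) : ∃ n : ℕ,
    IsArcVisibility j (⊤ : SimpleGraph (Fin n)) ∧ ¬ IsArcVisibility i (⊤ : SimpleGraph (Fin n)) := by
  classical
  obtain ⟨N, hN⟩ := complete_bounded i
  have hex : ∃ n, ¬ IsArcVisibility i (⊤ : SimpleGraph (Fin n)) := ⟨N, hN N le_rfl⟩
  set n := Nat.find hex with hn
  have h1 : ¬ IsArcVisibility i (⊤ : SimpleGraph (Fin n)) := Nat.find_spec hex
  have hsmall : ∀ m : ℕ, m ≤ 1 → IsArcVisibility i (⊤ : SimpleGraph (Fin m)) := by
    intro m hm
    have hpi := Real.pi_pos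
    refine ⟨fun _ => ⟨1, 0, 0, one_pos, le_refl _, by positivity, le_refl _, by
      rw [sub_zero]; positivity⟩, ?_, ?_⟩
    · intro u v huv
      exact absurd (Fin.ext (by omega)) huv
    · intro u v huv
      exact absurd (Fin.ext (by omega)) huv
  have hn2 : 2 ≤ n := by
    by_contra hcon
    exact h1 (hsmall n (by omega))
  obtain ⟨m, hm⟩ : ∃ m, n = m + 1 := ⟨n - 1, by omega⟩
  have h2 : IsArcVisibility i (⊤ : SimpleGraph (Fin m)) := by
    have := Nat.find_min hex (m := m) (by omega)
    push Not at this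
    exact this
  refine ⟨n, ?_, h1⟩
  have h3 := complete_step (V := Fin m) ⟨0, by omega⟩ i h2
  have h4 := complete_mono (show i + 1 ≤ j by omega) h3
  rw [hm]
  exact complete_equiv (finSuccEquiv m) j h4

end Step

/-! ### Few crossings force a large clique -/

section LineClique

variable {V : Type}

lemma exists_initial (S : Finset V) (f : V → ℝ) (hinj : Set.InjOn f S) :
    ∀ m : ℕ, m ≤ S.card →
      ∃ N : Finset V, N ⊆ S ∧ N.card = m ∧ ∀ x ∈ N, ∀ y ∈ S, f y ≤ f x → y ∈ N := by
  classical
  intro m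
  induction m with
  | zero =>
    intro _
    exact ⟨∅, Finset.empty_subset _, rfl, fun x hx => absurd hx (Finset.notMem_empty x)⟩
  | succ m ih =>
    intro hm
    obtain ⟨N, hNS, hNc, hN⟩ := ih (by omega)
    have hne : (S \ N).Nonempty := by
      rw [← Finset.card_pos, Finset.card_sdiff_of_subset hNS]
      omega
    obtain ⟨y, hy, hmin⟩ := (S \ N).exists_min_image f hne
    rw [Finset.mem_sdiff] at hy
    refine ⟨insert y N, ?_, ?_, ?_⟩
    · intro z hz
      rw [Finset.mem_insert] at hz
      rcases hz with rfl | hz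
      · exact hy.1
      · exact hNS hz
    · rw [Finset.card_insert_of_notMem hy.2, hNc]
    · intro x hx z hz hzx
      rw [Finset.mem_insert] at hx ⊢
      rcases hx with rfl | hx
      · by_cases hzN : z ∈ N
        · exact Or.inr hzN
        · left
          have := hmin z (Finset.mem_sdiff.2 ⟨hz, hzN⟩)
          exact hinj hz hy.1 (le_antisymm hzx this)
      · exact Or.inr (hN x hx z hz hzx)

lemma encard_le_of_finset {X : Set V} {N : Finset V} {k : ℕ} (h : X ⊆ N) (hN : N.card ≤ k) :
    X.encard ≤ k := by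
  refine (Set.encard_le_encard h).trans ?_
  rw [Set.encard_coe_eq_coe_finsetCard]
  exact_mod_cast hN

/-- If two arcs meet a common line but do not see each other past `i` arcs, then there are
`i + 2` arcs that pairwise see each other. -/
lemma line_clique [Fintype V] (A : V → Arc) (i : ℕ)
    (hd : ∀ u v, u ≠ v → Disjoint (A u).carrier (A v).carrier) (u v : V) (huv : u ≠ v)
    (φ s t : ℝ) (hst : s ≤ t) (h1 : pt s φ ∈ (A u).carrier) (h2 : pt t φ ∈ (A v).carrier)
    (hn : ¬ KVisible i A u v) :
    ∃ N : Finset V, N.card = i + 2 ∧ ∀ x ∈ N, ∀ y ∈ N, x ≠ y → KVisible i A x y := by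
  classical
  set S : Finset V := Finset.univ.filter fun w =>
    ∃ x ∈ Set.Icc s t, pt x φ ∈ (A w).carrier with hS
  have hmemS : ∀ w, w ∈ S ↔ ∃ x ∈ Set.Icc s t, pt x φ ∈ (A w).carrier := by
    intro w
    simp [hS]
  -- the least position of each arc
  have hleast : ∀ w ∈ S, ∃ x ∈ Set.Icc s t, pt x φ ∈ (A w).carrier ∧
      ∀ x' ∈ Set.Icc s t, pt x' φ ∈ (A w).carrier → x ≤ x' := by
    intro w hw
    rw [hmemS] at hw
    obtain ⟨x, hx, hxw⟩ := hw
    set P : Finset ℝ := ({(A w).r, -(A w).r} : Finset ℝ).filter fun x =>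
      x ∈ Set.Icc s t ∧ pt x φ ∈ (A w).carrier with hP
    have hmemP : ∀ x' ∈ Set.Icc s t, pt x' φ ∈ (A w).carrier → x' ∈ P := by
      intro x' hx' hxw'
      rw [hP, Finset.mem_filter]
      refine ⟨?_, hx', hxw'⟩
      obtain ⟨m, -, -, rfl⟩ := (mem_carrier_iff _ _ _).1 hxw'
      unfold hgt
      split_ifs <;> simp
    obtain ⟨y, hy, hmin⟩ := P.exists_min_image id ⟨x, hmemP x hx hxw⟩
    rw [hP, Finset.mem_filter] at hy
    exact ⟨y, hy.2.1, hy.2.2, fun x' hx' hxw' => hmin x' (hmemP x' hx' hxw')⟩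
  choose! f hf1 hf2 hf3 using hleast
  have hinj : Set.InjOn f (S : Set V) := by
    intro x hx y hy hxy
    by_contra hne
    have := hd x y hne
    rw [Set.disjoint_left] at this
    have h3 := hf2 x hx
    have h4 := hf2 y hy
    rw [hxy] at h3
    exact this h3 h4
  have huS : u ∈ S := (hmemS u).2 ⟨s, ⟨le_rfl, hst⟩, h1⟩
  have hvS : v ∈ S := (hmemS v).2 ⟨t, ⟨hst, le_rfl⟩, h2⟩
  have hcard : i + 2 ≤ S.card := by
    by_contra hcon
    apply hn
    refine ⟨φ, s, t, h1, h2, ?_⟩
    apply encard_le_of_finset (N := (S.erase u).erase v)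
    · rintro w ⟨hw1, hw2, x, hx, hxw⟩
      rw [Set.uIcc_of_le hst] at hx
      rw [Finset.mem_coe, Finset.mem_erase, Finset.mem_erase]
      exact ⟨hw2, hw1, (hmemS w).2 ⟨x, hx, hxw⟩⟩
    · rw [Finset.card_erase_of_mem (Finset.mem_erase.2 ⟨huv.symm, hvS⟩),
        Finset.card_erase_of_mem huS]
      omega
  obtain ⟨N, hNS, hNc, hN⟩ := exists_initial S f hinj (i + 2) hcard
  refine ⟨N, hNc, ?_⟩
  intro x hx y hy hxy
  refine ⟨φ, f x, f y, hf2 x (hNS hx), hf2 y (hNS hy), ?_⟩
  apply encard_le_of_finset (N := (N.erase x).erase y)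
  · rintro w ⟨hw1, hw2, z, hz, hzw⟩
    rw [Finset.mem_coe, Finset.mem_erase, Finset.mem_erase]
    refine ⟨hw2, hw1, ?_⟩
    have hx' := hf1 x (hNS hx)
    have hy' := hf1 y (hNS hy)
    have hzI : z ∈ Set.Icc s t := by
      rw [Set.mem_uIcc] at hz
      rcases hz with hz | hz
      · exact ⟨hx'.1.trans hz.1, hz.2.trans hy'.2⟩
      · exact ⟨hy'.1.trans hz.1, hz.2.trans hx'.2⟩
    have hwS : w ∈ S := (hmemS w).2 ⟨z, hzI, hzw⟩
    have hfz : f w ≤ z := hf3 w hwS z hzI hzw
    rw [Set.mem_uIcc] at hz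
    rcases hz with hz | hz
    · exact hN y hy w hwS (hfz.trans hz.2)
    · exact hN x hx w hwS (hfz.trans hz.2)
  · rw [Finset.card_erase_of_mem (Finset.mem_erase.2 ⟨hxy.symm, hy⟩),
      Finset.card_erase_of_mem hx, hNc]
    omega

end LineClique

/-! ### Three stacks glued at one vertex -/

section Stacks

/-- The vertex `none` is the long inner arc; `some (s, m)` is level `m` of stack `s`. -/
abbrev SV (j : ℕ) := Option (Fin 3 × Fin (j + 2))

lemma seven_lt : (5 / 2 : ℝ) < Real.pi := by
  have := Real.pi_gt_three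
  linarith

noncomputable def stackArc (j : ℕ) : SV j → Arc
  | none =>
    { r := 1, a := 0, b := 5 / 2, hr := one_pos, ha0 := le_rfl
      ha1 := by have := Real.pi_pos; positivity
      hab := by norm_num
      hb := by have := seven_lt; linarith }
  | some (s, m) =>
    { r := (m : ℕ) + 2, a := (s : ℕ), b := (s : ℕ) + 1 / 2, hr := by positivity
      ha0 := by positivity
      ha1 := by
        have h1 : ((s : ℕ) : ℝ) ≤ 2 := by
          have : (s : ℕ) ≤ 2 := by omega
          exact_mod_cast this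
        have := seven_lt
        linarith
      hab := by linarith
      hb := by
        have := seven_lt
        linarith }

lemma stack_b (j : ℕ) (v : SV j) : (stackArc j v).b ≤ 5 / 2 := by
  rcases v with _ | ⟨s, m⟩
  · exact le_rfl
  · have h1 : ((s : ℕ) : ℝ) ≤ 2 := by
      have : (s : ℕ) ≤ 2 := by omega
      exact_mod_cast this
    show ((s : ℕ) : ℝ) + 1 / 2 ≤ 5 / 2
    linarith

/-- All copies on a line have the same number. -/
lemma stack_copy (j : ℕ) (u v : SV j) (φ : ℝ) (m n : ℤ)
    (h1 : (stackArc j u).a ≤ φ + m * Real.pi) (h2 : φ + m * Real.pi ≤ (stackArc j u).b)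
    (h3 : (stackArc j v).a ≤ φ + n * Real.pi) (h4 : φ + n * Real.pi ≤ (stackArc j v).b) :
    m = n := by
  have hpi := Real.pi_pos
  have h5 := stack_b j u
  have h6 := stack_b j v
  have h7 := (stackArc j u).ha0
  have h8 := (stackArc j v).ha0
  have h9 := seven_lt
  have h10 : ((m : ℝ) - n) * Real.pi < 1 * Real.pi := by linarith
  have h11 : (-1 : ℝ) * Real.pi < ((m : ℝ) - n) * Real.pi := by linarith
  have h12 := lt_of_mul_lt_mul_right h10 hpi.le
  have h13 := lt_of_mul_lt_mul_right h11 hpi.le
  have h14 : m - n < 1 := by exact_mod_cast h12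
  have h15 : -1 < m - n := by exact_mod_cast h13
  omega

lemma stack_r_inj (j : ℕ) (s s' : Fin 3) (m m' : Fin (j + 2))
    (h : (stackArc j (some (s, m))).r = (stackArc j (some (s', m'))).r) : m = m' := by
  have h1 : ((m : ℕ) : ℝ) + 2 = (m' : ℕ) + 2 := h
  have h2 : ((m : ℕ) : ℝ) = (m' : ℕ) := by linarith
  exact Fin.ext (by exact_mod_cast h2)

lemma stack_same (s s' : Fin 3) (x : ℝ) (h1 : ((s : ℕ) : ℝ) ≤ x) (h2 : x ≤ (s : ℕ) + 1 / 2)
    (h3 : ((s' : ℕ) : ℝ) ≤ x) (h4 : x ≤ (s' : ℕ) + 1 / 2) : s = s' := by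
  have h5 : ((s : ℕ) : ℝ) < (s' : ℕ) + 1 := by linarith
  have h6 : ((s' : ℕ) : ℝ) < (s : ℕ) + 1 := by linarith
  have h7 : (s : ℕ) < s' + 1 := by exact_mod_cast h5
  have h8 : (s' : ℕ) < s + 1 := by exact_mod_cast h6
  exact Fin.ext (by omega)

/-- Two vertices on a common line, expressed through a common direction. -/
lemma stack_line (j : ℕ) (u v : SV j) (φ x y : ℝ) (h1 : pt x φ ∈ (stackArc j u).carrier)
    (h2 : pt y φ ∈ (stackArc j v).carrier) :
    ∃ m : ℤ, (stackArc j u).a ≤ φ + m * Real.pi ∧ φ + m * Real.pi ≤ (stackArc j u).b ∧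
      (stackArc j v).a ≤ φ + m * Real.pi ∧ φ + m * Real.pi ≤ (stackArc j v).b ∧
      x = hgt (stackArc j u) m ∧ y = hgt (stackArc j v) m := by
  obtain ⟨m, h3, h4, h5⟩ := (mem_carrier_iff _ _ _).1 h1
  obtain ⟨n, h6, h7, h8⟩ := (mem_carrier_iff _ _ _).1 h2
  have := stack_copy j u v φ m n h3 h4 h6 h7
  subst this
  exact ⟨m, h3, h4, h6, h7, h5, h8⟩

lemma stack_disj (j : ℕ) (u v : SV j) (huv : u ≠ v) :
    Disjoint (stackArc j u).carrier (stackArc j v).carrier := by
  rw [Set.disjoint_left]
  rintro z ⟨φ, hφ, rfl⟩ hz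
  have h0 : pt (stackArc j u).r φ ∈ (stackArc j u).carrier := ⟨φ, hφ, rfl⟩
  obtain ⟨m, h1, h2, h3, h4, h5, h6⟩ := stack_line j u v φ _ _ h0 hz
  have h7 : (stackArc j u).r = (stackArc j v).r := by
    rw [h5] at h6
    have h8 := hgt_abs (stackArc j u) m
    rw [h6, hgt_abs] at h8
    exact h8.symm
  apply huv
  rcases u with _ | ⟨s, a⟩ <;> rcases v with _ | ⟨s', a'⟩
  · rfl
  · exfalso
    have h8 : (1 : ℝ) = (a' : ℕ) + 2 := h7
    have : (0 : ℝ) ≤ (a' : ℕ) := by positivity
    linarith
  · exfalso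
    have h8 : ((a : ℕ) : ℝ) + 2 = 1 := h7
    have : (0 : ℝ) ≤ (a : ℕ) := by positivity
    linarith
  · have h8 := stack_r_inj j s s' a a' h7
    have h9 := stack_same s s' _ h1 h2 h3 h4
    rw [h8, h9]

/-- The graph represented by the three stacks. -/
noncomputable def stackGraph (j : ℕ) : SimpleGraph (SV j) where
  Adj u v := u ≠ v ∧ KVisible j (stackArc j) u v
  symm := ⟨fun _ _ h => ⟨h.1.symm, KVisible_symm h.2⟩⟩
  loopless := ⟨fun _ h => h.1 rfl⟩

lemma stack_rep (j : ℕ) : IsArcVisibility j (stackGraph j) :=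
  ⟨stackArc j, stack_disj j, fun _ _ huv => ⟨fun h => h.2, fun h => ⟨huv, h⟩⟩⟩

lemma self_mem (A : Arc) (φ : ℝ) (h1 : A.a ≤ φ) (h2 : φ ≤ A.b) : pt A.r φ ∈ A.carrier :=
  ⟨φ, ⟨h1, h2⟩, rfl⟩

/-- Positions on the positive side of the line in direction `s`. -/
lemma stack_pos (j : ℕ) (s : Fin 3) (w : SV j) (x : ℝ) (hx : 0 < x)
    (h : pt x ((s : ℕ) : ℝ) ∈ (stackArc j w).carrier) :
    x = (stackArc j w).r ∧ (w = none ∨ ∃ m, w = some (s, m)) := by
  have h0 : pt (stackArc j (some (s, 0))).r ((s : ℕ) : ℝ) ∈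
      (stackArc j (some (s, 0))).carrier :=
    self_mem _ _ le_rfl (by show ((s : ℕ) : ℝ) ≤ (s : ℕ) + 1 / 2; linarith)
  obtain ⟨m, h1, h2, h3, h4, h5, h6⟩ := stack_line j _ w _ _ _ h0 h
  have hm : Even m := by
    by_contra hm
    unfold hgt at h5
    rw [if_neg hm] at h5
    have := (stackArc j (some (s, 0))).hr
    linarith
  refine ⟨by rw [h6]; unfold hgt; rw [if_pos hm], ?_⟩
  rcases w with _ | ⟨s', a'⟩
  · exact Or.inl rfl
  · right
    have := stack_same s s' _ h1 h2 h3 h4
    rw [← this]
    exact ⟨a', rfl⟩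

lemma adj_inner (j : ℕ) (s : Fin 3) : (stackGraph j).Adj none (some (s, 0)) := by
  refine ⟨by simp, (s : ℕ), (stackArc j none).r, (stackArc j (some (s, 0))).r, ?_, ?_, ?_⟩
  · apply self_mem
    · show (0 : ℝ) ≤ (s : ℕ)
      positivity
    · show ((s : ℕ) : ℝ) ≤ 5 / 2
      have : ((s : ℕ) : ℝ) ≤ 2 := by
        have : (s : ℕ) ≤ 2 := by omega
        exact_mod_cast this
      linarith
  · apply self_mem _ _ le_rfl
    show ((s : ℕ) : ℝ) ≤ (s : ℕ) + 1 / 2
    linarith
  · have : {w : SV j | w ≠ none ∧ w ≠ some (s, 0) ∧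
        ∃ x ∈ Set.uIcc (stackArc j none).r (stackArc j (some (s, 0))).r,
          pt x ((s : ℕ) : ℝ) ∈ (stackArc j w).carrier} = ∅ := by
      rw [Set.eq_empty_iff_forall_notMem]
      rintro w ⟨hw1, hw2, x, hx, hxw⟩
      have e1 : (stackArc j none).r = 1 := rfl
      have e2 : (stackArc j (some (s, 0))).r = 2 := by
        show (((0 : Fin (j + 2)) : ℕ) : ℝ) + 2 = 2
        simp
      rw [e1, e2, Set.uIcc_of_le (by norm_num)] at hx
      obtain ⟨h1, h2⟩ := stack_pos j s w x (by linarith [hx.1]) hxw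
      rcases h2 with rfl | ⟨m, rfl⟩
      · exact hw1 rfl
      · have e3 : (stackArc j (some (s, m))).r = (m : ℕ) + 2 := rfl
        have h3 : ((m : ℕ) : ℝ) ≤ 0 := by linarith [hx.2]
        have h4 : (m : ℕ) ≤ 0 := by exact_mod_cast h3
        apply hw2
        have : m = 0 := Fin.ext (by simpa using h4)
        rw [this]
    rw [this]
    simp

lemma adj_outer (j : ℕ) (s : Fin 3) :
    (stackGraph j).Adj (some (s, 0)) (some (s, Fin.last (j + 1))) := by
  refine ⟨?_, (s : ℕ), (stackArc j (some (s, 0))).r,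
    (stackArc j (some (s, Fin.last (j + 1)))).r, ?_, ?_, ?_⟩
  · intro h
    have h2 := congrArg Prod.snd (Option.some_injective _ h)
    have h3 := congrArg Fin.val h2
    simp at h3
  · apply self_mem _ _ le_rfl
    show ((s : ℕ) : ℝ) ≤ (s : ℕ) + 1 / 2
    linarith
  · apply self_mem _ _ le_rfl
    show ((s : ℕ) : ℝ) ≤ (s : ℕ) + 1 / 2
    linarith
  · classical
    apply encard_le_of_finset
      (N := ((Finset.univ.erase (0 : Fin (j + 2))).erase (Fin.last (j + 1))).image
        fun m => (some (s, m) : SV j))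
    · rintro w ⟨hw1, hw2, x, hx, hxw⟩
      have e1 : (stackArc j (some (s, 0))).r = 2 := by
        show (((0 : Fin (j + 2)) : ℕ) : ℝ) + 2 = 2
        simp
      have e2 : (stackArc j (some (s, Fin.last (j + 1)))).r = (j : ℝ) + 3 := by
        show (((Fin.last (j + 1)) : ℕ) : ℝ) + 2 = (j : ℝ) + 3
        simp
        ring
      have hj0 : (0 : ℝ) ≤ j := by positivity
      rw [e1, e2, Set.uIcc_of_le (by linarith)] at hx
      obtain ⟨h1, h2⟩ := stack_pos j s w x (by linarith [hx.1]) hxw
      rcases h2 with rfl | ⟨m, rfl⟩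
      · exfalso
        have e3 : (stackArc j none).r = 1 := rfl
        linarith [hx.1]
      · rw [Finset.mem_coe, Finset.mem_image]
        refine ⟨m, ?_, rfl⟩
        rw [Finset.mem_erase, Finset.mem_erase]
        refine ⟨fun h => hw2 (by rw [h]), fun h => hw1 (by rw [h]), Finset.mem_univ _⟩
    · refine Finset.card_image_le.trans ?_
      rw [Finset.card_erase_of_mem, Finset.card_erase_of_mem (Finset.mem_univ _),
        Finset.card_univ, Fintype.card_fin]
      · omega
      · rw [Finset.mem_erase]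
        refine ⟨?_, Finset.mem_univ _⟩
        intro h
        have := congrArg Fin.val h
        simp at this

lemma nonadj_stacks (j : ℕ) (s s' : Fin 3) (hs : s ≠ s') (m m' : Fin (j + 2)) :
    ¬ (stackGraph j).Adj (some (s, m)) (some (s', m')) := by
  rintro ⟨-, φ, x, y, h1, h2, -⟩
  obtain ⟨n, h3, h4, h5, h6, -, -⟩ := stack_line j _ _ φ x y h1 h2
  exact hs (stack_same s s' _ h3 h4 h5 h6)

lemma nonadj_far (j : ℕ) (s : Fin 3) :
    ¬ (stackGraph j).Adj none (some (s, Fin.last (j + 1))) := by
  classical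
  rintro ⟨-, φ, x, y, h1, h2, h3⟩
  obtain ⟨n, h4, h5, h6, h7, hx, hy⟩ := stack_line j _ _ φ x y h1 h2
  set N : Finset (SV j) := ((Finset.univ.erase (Fin.last (j + 1))).image
        fun m => (some (s, m) : SV j)) with hN
  have hsub : (N : Set (SV j)) ⊆ {w : SV j | w ≠ none ∧ w ≠ some (s, Fin.last (j + 1)) ∧
      ∃ z ∈ Set.uIcc x y, pt z φ ∈ (stackArc j w).carrier} := by
    intro w hw
    rw [hN, Finset.mem_coe, Finset.mem_image] at hw
    obtain ⟨m, hm, rfl⟩ := hw
    rw [Finset.mem_erase] at hm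
    refine ⟨by simp, ?_, hgt (stackArc j (some (s, m))) n, ?_, ?_⟩
    · intro h
      exact hm.1 (congrArg Prod.snd (Option.some_injective _ h))
    · rw [hx, hy]
      have e1 : (stackArc j none).r = 1 := rfl
      have e2 : (stackArc j (some (s, Fin.last (j + 1)))).r =
        (((Fin.last (j + 1)) : ℕ) : ℝ) + 2 := rfl
      have e3 : (stackArc j (some (s, m))).r = (m : ℕ) + 2 := rfl
      have h8 : ((m : ℕ) : ℝ) ≤ ((Fin.last (j + 1) : Fin (j + 2)) : ℕ) := by
        exact_mod_cast Fin.le_last m
      have h9 : (0 : ℝ) ≤ (m : ℕ) := by positivity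
      unfold hgt
      rw [e1, e2, e3]
      split_ifs
      · rw [Set.uIcc_of_le (by linarith)]
        constructor <;> linarith
      · rw [Set.uIcc_comm, Set.uIcc_of_le (by linarith)]
        constructor <;> linarith
    · rw [mem_carrier_iff]
      exact ⟨n, h6, h7, rfl⟩
  have h8 := (Set.encard_le_encard hsub).trans h3
  rw [Set.encard_coe_eq_coe_finsetCard, hN, Finset.card_image_of_injective,
    Finset.card_erase_of_mem (Finset.mem_univ _), Finset.card_univ, Fintype.card_fin] at h8
  · have h9 : j + 2 - 1 ≤ j := by exact_mod_cast h8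
    omega
  · intro a b hab
    exact congrArg Prod.snd (Option.some_injective _ hab)

lemma stack_clique (j : ℕ) (N : Finset (SV j))
    (hN : ∀ x ∈ N, ∀ y ∈ N, x ≠ y → (stackGraph j).Adj x y) : N.card ≤ j + 2 := by
  classical
  by_contra hcon
  push Not at hcon
  by_cases hs : ∃ s : Fin 3, ∃ m : Fin (j + 2), some (s, m) ∈ N
  · obtain ⟨s, m, hm⟩ := hs
    set T : Finset (SV j) := insert none (Finset.univ.image fun m => (some (s, m) : SV j))
      with hT
    have hNT : N ⊆ T := by
      intro w hw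
      rcases w with _ | ⟨s', m'⟩
      · exact Finset.mem_insert_self _ _
      · by_cases hss : s = s'
        · rw [hT, Finset.mem_insert]
          right
          rw [Finset.mem_image]
          exact ⟨m', Finset.mem_univ _, by rw [hss]⟩
        · exfalso
          exact nonadj_stacks j s s' hss m m' (hN _ hm _ hw (by
            intro h
            exact hss (congrArg Prod.fst (Option.some_injective _ h))))
    have hTc : T.card ≤ j + 3 := by
      refine (Finset.card_insert_le _ _).trans ?_
      have := Finset.card_image_le (s := (Finset.univ : Finset (Fin (j + 2))))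
        (f := fun m => (some (s, m) : SV j))
      rw [Finset.card_univ, Fintype.card_fin] at this
      omega
    have hEq : N = T := Finset.eq_of_subset_of_card_le hNT (by omega)
    apply nonadj_far j s
    apply hN
    · rw [hEq]
      exact Finset.mem_insert_self _ _
    · rw [hEq, hT, Finset.mem_insert]
      right
      rw [Finset.mem_image]
      exact ⟨_, Finset.mem_univ _, rfl⟩
    · simp
  · have : N ⊆ {none} := by
      intro w hw
      rcases w with _ | ⟨s', m'⟩
      · exact Finset.mem_singleton_self _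
      · exact absurd ⟨s', m', hw⟩ hs
    have := Finset.card_le_card this
    rw [Finset.card_singleton] at this
    omega

/-- `A_j` is not contained in `A_i` when `j < i`: three stacks glued at a vertex. -/
lemma smaller (i j : ℕ) (hij : j < i) :
    IsArcVisibility j (stackGraph j) ∧ ¬ IsArcVisibility i (stackGraph j) := by
  classical
  refine ⟨stack_rep j, ?_⟩
  rintro ⟨B, hd, hB⟩
  -- arcs on a common line are adjacent
  have hline : ∀ u v : SV j, u ≠ v → ∀ φ s t : ℝ, pt s φ ∈ (B u).carrier →
      pt t φ ∈ (B v).carrier → (stackGraph j).Adj u v := by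
    intro u v huv φ s t h1 h2
    rw [hB u v huv]
    by_contra hcon
    have hex : ∃ N : Finset (SV j), N.card = i + 2 ∧
        ∀ x ∈ N, ∀ y ∈ N, x ≠ y → KVisible i B x y := by
      rcases le_total s t with h | h
      · exact line_clique B i hd u v huv φ s t h h1 h2 hcon
      · exact line_clique B i hd v u huv.symm φ t s h h2 h1 (fun h => hcon (KVisible_symm h))
    obtain ⟨N, hNc, hN⟩ := hex
    have := stack_clique j N (fun x hx y hy hxy => (hB x y hxy).2 (hN x hx y hy hxy))
    omega
  -- each inner arc contains one of the two end directions of the central arc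
  have hend : ∀ s : Fin 3, (∃ n : ℤ, (B (some (s, 0))).a ≤ (B none).a + n * Real.pi ∧
      (B none).a + n * Real.pi ≤ (B (some (s, 0))).b) ∨
      (∃ n : ℤ, (B (some (s, 0))).a ≤ (B none).b + n * Real.pi ∧
      (B none).b + n * Real.pi ≤ (B (some (s, 0))).b) := by
    intro s
    have hadj1 := adj_inner j s
    have hadj2 := adj_outer j s
    have h1 := (hB _ _ hadj1.ne).1 hadj1
    have h2 := (hB _ _ hadj2.ne).1 hadj2
    obtain ⟨φ, x, y, h3, h4, -⟩ := h1
    obtain ⟨ψ, x', y', h5, h6, -⟩ := h2
    obtain ⟨p, h7, h8, -⟩ := (mem_carrier_iff _ _ _).1 h3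
    obtain ⟨q, h9, h10, -⟩ := (mem_carrier_iff _ _ _).1 h4
    obtain ⟨p', h11, h12, -⟩ := (mem_carrier_iff _ _ _).1 h5
    -- `φ + qπ` and `ψ + p'π` lie in the interval of the inner arc
    have hout : ¬ ((B none).a ≤ ψ + (p' + (p - q) : ℤ) * Real.pi ∧
        ψ + (p' + (p - q) : ℤ) * Real.pi ≤ (B none).b) := by
      rintro ⟨h13, h14⟩
      apply nonadj_far j s
      have h15 : pt (hgt (B none) (p' + (p - q))) ψ ∈ (B none).carrier := by
        rw [mem_carrier_iff]
        exact ⟨_, h13, h14, rfl⟩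
      exact hline _ _ (by simp) ψ _ _ h15 h6
    have e1 : ψ + ((p' + (p - q) : ℤ) : ℝ) * Real.pi =
        (ψ + p' * Real.pi) + ((p : ℝ) - q) * Real.pi := by
      push_cast
      ring
    have e2 : φ + (p : ℝ) * Real.pi = (φ + q * Real.pi) + ((p : ℝ) - q) * Real.pi := by
      ring
    rw [e1] at hout
    rw [e2] at h7 h8
    rcases lt_or_ge (ψ + p' * Real.pi + ((p : ℝ) - q) * Real.pi) (B none).a with h | h
    · left
      refine ⟨q - p, ?_, ?_⟩
      · push_cast
        linarith
      · push_cast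
        linarith
    · right
      have h' : (B none).b < ψ + p' * Real.pi + ((p : ℝ) - q) * Real.pi := by
        by_contra hcon
        exact hout ⟨h, not_lt.1 hcon⟩
      refine ⟨q - p, ?_, ?_⟩
      · push_cast
        linarith
      · push_cast
        linarith
  -- two inner arcs sharing a direction would be adjacent
  have hshare : ∀ s s' : Fin 3, s ≠ s' → ∀ θ : ℝ,
      (∃ n : ℤ, (B (some (s, 0))).a ≤ θ + n * Real.pi ∧
        θ + n * Real.pi ≤ (B (some (s, 0))).b) →
      (∃ n : ℤ, (B (some (s', 0))).a ≤ θ + n * Real.pi ∧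
        θ + n * Real.pi ≤ (B (some (s', 0))).b) → False := by
    rintro s s' hss θ ⟨n, h1, h2⟩ ⟨n', h3, h4⟩
    apply nonadj_stacks j s s' hss 0 0
    have h5 : pt (hgt (B (some (s, 0))) n) θ ∈ (B (some (s, 0))).carrier := by
      rw [mem_carrier_iff]
      exact ⟨n, h1, h2, rfl⟩
    have h6 : pt (hgt (B (some (s', 0))) n') θ ∈ (B (some (s', 0))).carrier := by
      rw [mem_carrier_iff]
      exact ⟨n', h3, h4, rfl⟩
    refine hline _ _ ?_ θ _ _ h5 h6
    intro h
    exact hss (congrArg Prod.fst (Option.some_injective _ h))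
  rcases hend 0 with h0 | h0 <;> rcases hend 1 with h1 | h1 <;> rcases hend 2 with h2 | h2
  · exact hshare 0 1 (by decide) _ h0 h1
  · exact hshare 0 1 (by decide) _ h0 h1
  · exact hshare 0 2 (by decide) _ h0 h2
  · exact hshare 1 2 (by decide) _ h1 h2
  · exact hshare 1 2 (by decide) _ h1 h2
  · exact hshare 0 2 (by decide) _ h0 h2
  · exact hshare 0 1 (by decide) _ h0 h1
  · exact hshare 0 1 (by decide) _ h0 h1

end Stacks

/-- For every pair of distinct `i`, `j` there is a finite graph that is an arc `j`-visibility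
graph but not an arc `i`-visibility graph. -/
theorem result : ∀ i j : ℕ, i ≠ j → ∃ (V : Type) (_ : Finite V) (G : SimpleGraph V),
    IsArcVisibility j G ∧ ¬ IsArcVisibility i G := by
  intro i j hij
  rcases lt_or_gt_of_ne hij with h | h
  · obtain ⟨n, h1, h2⟩ := larger i j h
    exact ⟨Fin n, inferInstance, ⊤, h1, h2⟩
  · obtain ⟨h1, h2⟩ := smaller i j h
    exact ⟨SV j, inferInstance, stackGraph j, h1, h2⟩

end Pool.Agent.Results.MP_73fdb2_co.Incomparable
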